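import Pool.Agent.helper62.K3.Main

set_option autoImplicit false

open scoped Manifold ContDiff
open Pool.Agent.helper62.K3

namespace Pool.Agent.Results.MP_90cd86_gt.NonK3Group

/-- **A finite group that is not a K3 group but acts smoothly on a K3 manifold.** The complete
intersection `X0` of the three quadrics `∑ i ^ m * x_i ^ 2 = 0`, `m = 0, 1, 2`, in `ℂP^5` is a K3
surface. The sign changes of the coordinates and complex conjugation give an effective smooth
orientation preserving action of `G = (ℤ/2)^6` on `X0`, but `G` is not isomorphic to a group of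
holomorphic automorphisms of any K3 surface. In particular the first question has the answer yes. -/
theorem result :
    (∃ (G : Type) (_ : Group G) (_ : Finite G) (E : Type) (_ : NormedAddCommGroup E)
      (_ : NormedSpace ℝ E) (M : Type) (_ : TopologicalSpace M) (_ : ChartedSpace E M),
      ¬ IsK3Group G ∧ IsHomotopyK3 E M ∧ ActsSmoothly G E M) ∧
    IsK3Surface X0 ∧
    ¬ IsK3Group (Multiplicative (Fin 6 → ZMod 2)) ∧
    ∃ ρ : Multiplicative (Fin 6 → ZMod 2) →* (X0 ≃ₜ X0), Function.Injective ρ ∧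
      (∀ (v : Fin 6 → ZMod 2) (T : X0) (i j : Fin 6),
        (ρ (Multiplicative.ofAdd v) T).1 i j = sg v i * sg v j * cj v (T.1 i j)) ∧
      (∀ g, ContMDiff 𝓘(ℝ, ℂ × ℂ) 𝓘(ℝ, ℂ × ℂ) ∞ (ρ g)) ∧
      ∀ g p, 0 < (fderiv ℝ
        (fun z => chartAt (ℂ × ℂ) (ρ g p) (ρ g ((chartAt (ℂ × ℂ) p).symm z)))
        (chartAt (ℂ × ℂ) p p)).det := by
  obtain ⟨ρ, h1, h2, h3, h4⟩ := MAIN_acts
  exact ⟨⟨Multiplicative (Fin 6 → ZMod 2), inferInstance, inferInstance, ℂ × ℂ, inferInstance,
    inferInstance, X0, inferInstance, inferInstance, MAIN_not, MAIN_homotopyK3, ρ, h1, h3⟩,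
    MAIN_K3, MAIN_not, ρ, h1, h2, h3, h4⟩

end Pool.Agent.Results.MP_90cd86_gt.NonK3Group
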